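import Mathlib

namespace Pool.Agent.Results.MP_345bc6_co.DensityBound

open SimpleGraph
open scoped Classical

universe u

variable {V : Type u} [Fintype V]

/-- The connected sets of `G`: the vertex sets inducing a connected (in particular nonempty)
subgraph. -/
noncomputable def connSets (G : SimpleGraph V) : Finset (Finset V) :=
  Finset.univ.filter fun U => (G.induce (U : Set V)).Connected

/-- The density `D(G)`: the mean order of a connected set divided by the number of vertices. -/
noncomputable def density (G : SimpleGraph V) : ℝ :=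
  ((∑ U ∈ connSets G, (U.card : ℝ)) / ((connSets G).card : ℝ)) / (Fintype.card V : ℝ)

/-- closed neighbourhood of a set -/
noncomputable def cl (G : SimpleGraph V) (I : Finset V) : Finset V :=
  Finset.univ.filter fun v => v ∈ I ∨ ∃ w ∈ I, G.Adj w v

/-- neighbours of `x` outside the closed neighbourhood of `I` -/
noncomputable def out (G : SimpleGraph V) (I : Finset V) (x : V) : Finset V :=
  Finset.univ.filter fun w => w ∉ cl G I ∧ G.Adj x w

/-- the dead leaves -/
noncomputable def dead (G : SimpleGraph V) (I : Finset V) : Finset V :=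
  (cl G I \ I).filter fun x => out G I x = ∅

theorem mem_cl {G : SimpleGraph V} {I : Finset V} {v : V} :
    v ∈ cl G I ↔ v ∈ I ∨ ∃ w ∈ I, G.Adj w v := by simp [cl]

theorem mem_out {G : SimpleGraph V} {I : Finset V} {x w : V} :
    w ∈ out G I x ↔ w ∉ cl G I ∧ G.Adj x w := by simp [out]

theorem cl_insert (G : SimpleGraph V) (I : Finset V) {x : V} (hx : x ∈ cl G I) :
    cl G (insert x I) = cl G I ∪ out G I x := by
  ext v
  simp only [mem_cl, Finset.mem_insert, Finset.mem_union, mem_out]
  rw [mem_cl] at hx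
  constructor
  · rintro ((rfl | h) | ⟨w, rfl | hw, hwv⟩)
    · exact Or.inl hx
    · exact Or.inl (Or.inl h)
    · by_cases h : v ∈ I ∨ ∃ w ∈ I, G.Adj w v
      · exact Or.inl h
      · exact Or.inr ⟨h, hwv⟩
    · exact Or.inl (Or.inr ⟨w, hw, hwv⟩)
  · rintro ((h | ⟨w, hw, hwv⟩) | ⟨-, h⟩)
    · exact Or.inl (Or.inr h)
    · exact Or.inr ⟨w, Or.inr hw, hwv⟩
    · exact Or.inr ⟨x, Or.inl rfl, h⟩

theorem disj_out (G : SimpleGraph V) (I : Finset V) (x : V) : Disjoint (cl G I) (out G I x) := by
  rw [Finset.disjoint_left]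
  intro a ha ha'
  exact (mem_out.1 ha').1 ha

theorem card_cl_insert (G : SimpleGraph V) (I : Finset V) {x : V} (hx : x ∈ cl G I) :
    (cl G (insert x I)).card = (cl G I).card + (out G I x).card := by
  rw [cl_insert G I hx, Finset.card_union_of_disjoint (disj_out G I x)]

theorem lv_insert (G : SimpleGraph V) (I : Finset V) {x : V} (hx : x ∈ cl G I \ I) :
    cl G (insert x I) \ insert x I = ((cl G I \ I).erase x) ∪ out G I x := by
  rw [Finset.mem_sdiff] at hx
  rw [cl_insert G I hx.1]
  ext v
  simp only [Finset.mem_sdiff, Finset.mem_union, Finset.mem_insert, Finset.mem_erase, not_or]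
  constructor
  · rintro ⟨h1 | h1, h2, h3⟩
    · exact Or.inl ⟨h2, h1, h3⟩
    · exact Or.inr h1
  · rintro (⟨h1, h2, h3⟩ | h)
    · exact ⟨Or.inl h2, h1, h3⟩
    · refine ⟨Or.inr h, ?_, ?_⟩
      · rintro rfl
        exact (mem_out.1 h).1 hx.1
      · intro hv
        exact (mem_out.1 h).1 (mem_cl.2 (Or.inl hv))

theorem card_lv_insert (G : SimpleGraph V) (I : Finset V) {x : V} (hx : x ∈ cl G I \ I) :
    (cl G (insert x I) \ insert x I).card + 1 = (cl G I \ I).card + (out G I x).card := by
  rw [lv_insert G I hx, Finset.card_union_of_disjoint, Finset.card_erase_of_mem hx]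
  · have : 0 < (cl G I \ I).card := Finset.card_pos.2 ⟨x, hx⟩
    omega
  · rw [Finset.disjoint_left]
    intro a ha ha'
    exact (mem_out.1 ha').1 (Finset.mem_sdiff.1 (Finset.mem_of_mem_erase ha)).1

theorem out_insert_subset (G : SimpleGraph V) (I : Finset V) {x : V} (hx : x ∈ cl G I) (d : V) :
    out G (insert x I) d ⊆ out G I d := by
  intro w hw
  rw [mem_out] at hw ⊢
  refine ⟨fun h => hw.1 ?_, hw.2⟩
  rw [cl_insert G I hx]
  exact Finset.mem_union_left _ h

theorem dead_insert (G : SimpleGraph V) (I : Finset V) {x : V} (hx : x ∈ cl G I \ I)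
    (hne : (out G I x).Nonempty) : dead G I ⊆ dead G (insert x I) := by
  intro d hd
  rw [dead, Finset.mem_filter] at hd ⊢
  rw [lv_insert G I hx]
  refine ⟨Finset.mem_union_left _ (Finset.mem_erase.2 ⟨?_, hd.1⟩), ?_⟩
  · rintro rfl
    rw [hd.2] at hne
    exact Finset.not_nonempty_empty hne
  · exact Finset.subset_empty.1 (hd.2 ▸ out_insert_subset G I (Finset.mem_sdiff.1 hx).1 d)

theorem conn_insert (G : SimpleGraph V) {I : Finset V} (hI : (G.induce (I : Set V)).Connected)
    {x : V} (hx : x ∈ cl G I) : (G.induce ((insert x I : Finset V) : Set V)).Connected := by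
  rcases mem_cl.1 hx with h | ⟨w, hw, hwx⟩
  · rwa [Finset.insert_eq_of_mem h]
  · have h1 : (G.induce ({x} : Set V)).Preconnected := by
      rintro ⟨a, ha⟩ ⟨b, hb⟩
      have : (⟨a, ha⟩ : ({x} : Set V)) = ⟨b, hb⟩ := Subtype.ext
        ((Set.mem_singleton_iff.1 ha).trans (Set.mem_singleton_iff.1 hb).symm)
      rw [this]
    have := connected_induce_union hI.preconnected h1 (v := w) (w := x)
      (Finset.mem_coe.2 hw) rfl hwx
    rw [Finset.coe_insert, Set.insert_eq, Set.union_comm]
    exact this

/-- one growth step -/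
theorem grow (G : SimpleGraph V) (hG : G.Connected) (hdeg : ∀ v, 3 ≤ (G.neighborSet v).ncard)
    {I : Finset V} (hI : (G.induce (I : Set V)).Connected)
    (hP : (cl G I).card ≤ 3 * (cl G I \ I).card + (dead G I).card) (hne : cl G I ≠ Finset.univ) :
    ∃ I' : Finset V, (G.induce (I' : Set V)).Connected ∧
      (cl G I').card ≤ 3 * (cl G I' \ I').card + (dead G I').card ∧
      (cl G I).card < (cl G I').card := by
  -- a boundary edge
  obtain ⟨x0, y0, hx0, hy0, hxy0⟩ : ∃ x y, x ∈ cl G I ∧ y ∉ cl G I ∧ G.Adj x y := by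
    obtain ⟨a, ha⟩ := hI.nonempty
    obtain ⟨b, hb⟩ : ∃ b, b ∉ cl G I := by
      by_contra h
      push Not at h
      exact hne (Finset.eq_univ_iff_forall.2 h)
    obtain ⟨p⟩ := hG.preconnected a b
    obtain ⟨d, -, hd1, hd2⟩ := p.exists_boundary_dart (cl G I : Set V)
      (Finset.mem_coe.2 (mem_cl.2 (Or.inl (Finset.mem_coe.1 ha)))) (fun h => hb (Finset.mem_coe.1 h))
    exact ⟨d.fst, d.snd, Finset.mem_coe.1 hd1, fun h => hd2 (Finset.mem_coe.2 h), d.adj⟩
  have hlv : ∀ x y, x ∈ cl G I → y ∉ cl G I → G.Adj x y → x ∈ cl G I \ I := by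
    intro x y hx hy hxy
    rw [Finset.mem_sdiff]
    exact ⟨hx, fun h => hy (mem_cl.2 (Or.inr ⟨x, h, hxy⟩))⟩
  by_cases ha : ∃ x ∈ cl G I, 2 ≤ (out G I x).card
  · obtain ⟨x, hx, hk⟩ := ha
    obtain ⟨y, hy⟩ := Finset.card_pos.1 (show 0 < (out G I x).card by omega)
    have hxl := hlv x y hx (mem_out.1 hy).1 (mem_out.1 hy).2
    have h1 := card_cl_insert G I hx
    have h2 := card_lv_insert G I hxl
    have h3 := Finset.card_le_card (dead_insert G I hxl ⟨y, hy⟩)
    exact ⟨insert x I, conn_insert G hI hx, by omega, by omega⟩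
  push Not at ha
  have hx0l := hlv x0 y0 hx0 hy0 hxy0
  have hy0o : y0 ∈ out G I x0 := mem_out.2 ⟨hy0, hxy0⟩
  have hout0 : out G I x0 = {y0} := by
    have := ha x0 hx0
    have h1 : (out G I x0).card = 1 := by
      have : 0 < (out G I x0).card := Finset.card_pos.2 ⟨y0, hy0o⟩
      omega
    obtain ⟨z, hz⟩ := Finset.card_eq_one.1 h1
    rw [hz] at hy0o ⊢
    rw [Finset.mem_singleton.1 hy0o]
  have c1 := card_cl_insert G I hx0
  have c2 := card_lv_insert G I hx0l
  rw [hout0, Finset.card_singleton] at c1 c2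
  have c3 := dead_insert G I hx0l ⟨y0, hy0o⟩
  have hcon1 := conn_insert G hI hx0
  have hy0cl : y0 ∈ cl G (insert x0 I) := by
    rw [cl_insert G I hx0]
    exact Finset.mem_union_right _ hy0o
  have hy0n : y0 ∉ insert x0 I := by
    rw [Finset.mem_insert]
    rintro (rfl | h)
    · exact hxy0.ne rfl
    · exact hy0 (mem_cl.2 (Or.inl h))
  have hy0lv : y0 ∈ cl G (insert x0 I) \ insert x0 I := Finset.mem_sdiff.2 ⟨hy0cl, hy0n⟩
  have hout1 : out G (insert x0 I) y0 = out G I y0 := by
    apply Finset.Subset.antisymm (out_insert_subset G I hx0 y0)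
    intro w hw
    rw [mem_out] at hw ⊢
    refine ⟨fun h => ?_, hw.2⟩
    rw [cl_insert G I hx0, Finset.mem_union] at h
    rcases h with h | h
    · exact hw.1 h
    · rw [hout0, Finset.mem_singleton] at h
      rw [h] at hw
      exact hw.2.ne rfl
  by_cases hb : 2 ≤ (out G I y0).card
  · have d1 := card_cl_insert G (insert x0 I) hy0cl
    have d2 := card_lv_insert G (insert x0 I) hy0lv
    rw [hout1] at d1 d2
    have d3 := dead_insert G (insert x0 I) hy0lv
      (by rw [hout1]; exact Finset.card_pos.1 (by omega))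
    have d4 := Finset.card_le_card (c3.trans d3)
    exact ⟨insert y0 (insert x0 I), conn_insert G hcon1 hy0cl, by omega, by omega⟩
  · -- `y0` has a second neighbour in the closed neighbourhood
    obtain ⟨x1, hx1, hx1y, hx10⟩ : ∃ x1 ∈ cl G I, G.Adj x1 y0 ∧ x1 ≠ x0 := by
      by_contra hno
      push Not at hno
      have hsub : G.neighborSet y0 ⊆ ((insert x0 (out G I y0) : Finset V) : Set V) := by
        intro w hw
        rw [Finset.mem_coe, Finset.mem_insert]
        by_cases hwc : w ∈ cl G I
        · exact Or.inl (hno w hwc (G.symm.symm _ _ hw))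
        · exact Or.inr (mem_out.2 ⟨hwc, hw⟩)
      have h1 := Set.ncard_le_ncard hsub (Finset.finite_toSet _)
      rw [Set.ncard_coe_finset] at h1
      have h2 := Finset.card_insert_le x0 (out G I y0)
      have h3 := hdeg y0
      omega
    have hx1l := hlv x1 y0 hx1 hy0 hx1y
    have hout2 : out G I x1 ⊆ {y0} := by
      have h1 := ha x1 hx1
      have h2 : y0 ∈ out G I x1 := mem_out.2 ⟨hy0, hx1y⟩
      have h3 : (out G I x1).card = 1 := by
        have : 0 < (out G I x1).card := Finset.card_pos.2 ⟨y0, h2⟩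
        omega
      obtain ⟨z, hz⟩ := Finset.card_eq_one.1 h3
      rw [hz] at h2 ⊢
      rw [Finset.mem_singleton.1 h2]
    have hx1d : x1 ∉ dead G I := by
      intro h
      rw [dead, Finset.mem_filter] at h
      have h2 : y0 ∈ out G I x1 := mem_out.2 ⟨hy0, hx1y⟩
      rw [h.2] at h2
      exact absurd h2 (Finset.notMem_empty _)
    have hx1d' : x1 ∈ dead G (insert x0 I) := by
      rw [dead, Finset.mem_filter, lv_insert G I hx0l]
      refine ⟨Finset.mem_union_left _ (Finset.mem_erase.2 ⟨hx10, hx1l⟩), ?_⟩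
      rw [Finset.eq_empty_iff_forall_notMem]
      intro w hw
      have h1 := Finset.mem_singleton.1 (hout2 (out_insert_subset G I hx0 x1 hw))
      rw [h1] at hw
      exact (mem_out.1 hw).1 hy0cl
    have hcard : (dead G I).card + 1 ≤ (dead G (insert x0 I)).card := by
      rw [← Finset.card_insert_of_notMem hx1d]
      apply Finset.card_le_card
      intro w hw
      rw [Finset.mem_insert] at hw
      rcases hw with rfl | hw
      · exact hx1d'
      · exact c3 hw
    exact ⟨insert x0 I, hcon1, by omega, by omega⟩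

/-- Kleitman-West type bound: a connected set `I` dominating `G` with at most `3n/4` vertices -/
theorem exists_dom (G : SimpleGraph V) (hG : G.Connected)
    (hdeg : ∀ v, 3 ≤ (G.neighborSet v).ncard) :
    ∃ I : Finset V, (G.induce (I : Set V)).Connected ∧ cl G I = Finset.univ ∧
      Fintype.card V ≤ 4 * (Finset.univ \ I).card := by
  have key : ∀ n : ℕ, ∀ I : Finset V, (G.induce (I : Set V)).Connected →
      (cl G I).card ≤ 3 * (cl G I \ I).card + (dead G I).card →
      Fintype.card V ≤ (cl G I).card + n →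
      ∃ I : Finset V, (G.induce (I : Set V)).Connected ∧ cl G I = Finset.univ ∧
      (cl G I).card ≤ 3 * (cl G I \ I).card + (dead G I).card := by
    intro n
    induction n with
    | zero =>
      intro I hI hP hn
      refine ⟨I, hI, ?_, hP⟩
      rw [← Finset.card_eq_iff_eq_univ]
      exact le_antisymm (Finset.card_le_univ _) (by omega)
    | succ n ih =>
      intro I hI hP hn
      by_cases hne : cl G I = Finset.univ
      · exact ⟨I, hI, hne, hP⟩
      · obtain ⟨I', h1, h2, h3⟩ := grow G hG hdeg hI hP hne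
        exact ih I' h1 h2 (by omega)
  obtain ⟨v⟩ := hG.nonempty
  have hcl : cl G {v} = insert v (G.neighborSet v).toFinset := by
    ext w
    simp [mem_cl]
  have hvn : v ∉ (G.neighborSet v).toFinset := by simp
  have hc1 : (cl G {v}).card = (G.neighborSet v).ncard + 1 := by
    rw [hcl, Finset.card_insert_of_notMem hvn, Set.ncard_eq_toFinset_card']
  have hc2 : (cl G {v} \ {v}).card = (G.neighborSet v).ncard := by
    have : cl G {v} \ {v} = (G.neighborSet v).toFinset := by
      rw [hcl]
      ext w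
      simp only [Finset.mem_sdiff, Finset.mem_insert, Finset.mem_singleton]
      constructor
      · rintro ⟨h | h, h2⟩
        · exact absurd h h2
        · exact h
      · intro h
        refine ⟨Or.inr h, ?_⟩
        rintro rfl
        exact hvn h
    rw [this, Set.ncard_eq_toFinset_card']
  have hv := hdeg v
  have hs : (G.induce (({v} : Finset V) : Set V)).Connected := by
    have : Nonempty ((({v} : Finset V) : Set V)) := ⟨⟨v, by simp⟩⟩
    refine ⟨?_⟩
    rintro ⟨a, ha⟩ ⟨b, hb⟩
    have ha' : a = v := by simpa using ha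
    have hb' : b = v := by simpa using hb
    have : (⟨a, ha⟩ : (({v} : Finset V) : Set V)) = ⟨b, hb⟩ := Subtype.ext (ha'.trans hb'.symm)
    rw [this]
  obtain ⟨I, h1, h2, h3⟩ := key (Fintype.card V) {v} hs (by omega) (by omega)
  refine ⟨I, h1, h2, ?_⟩
  rw [h2] at h3
  have h4 : (dead G I).card ≤ (Finset.univ \ I).card := by
    rw [← h2]
    exact Finset.card_le_card (Finset.filter_subset _ _)
  rw [Finset.card_univ] at h3
  omega

/-- adding vertices of the closed neighbourhood keeps a set connected -/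
theorem conn_union (G : SimpleGraph V) {I : Finset V} (hI : (G.induce (I : Set V)).Connected)
    (X : Finset V) (hX : X ⊆ cl G I) : (G.induce ((I ∪ X : Finset V) : Set V)).Connected := by
  induction X using Finset.induction_on with
  | empty => rw [Finset.union_empty]; exact hI
  | insert x X _ ih =>
    have h1 := ih (fun y hy => hX (Finset.mem_insert_of_mem hy))
    rw [Finset.union_insert]
    apply conn_insert G h1
    rcases mem_cl.1 (hX (Finset.mem_insert_self x X)) with h | ⟨w, hw, hwx⟩
    · exact mem_cl.2 (Or.inl (Finset.mem_union_left _ h))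
    · exact mem_cl.2 (Or.inr ⟨w, Finset.mem_union_left _ hw, hwx⟩)

/-- exponentially many connected sets -/
theorem card_connSets (G : SimpleGraph V) (hG : G.Connected)
    (hdeg : ∀ v, 3 ≤ (G.neighborSet v).ncard) :
    ∃ L : ℕ, Fintype.card V ≤ 4 * L ∧ 2 ^ L ≤ (connSets G).card := by
  obtain ⟨I, h1, h2, h3⟩ := exists_dom G hG hdeg
  refine ⟨(Finset.univ \ I).card, h3, ?_⟩
  rw [← Finset.card_powerset]
  apply Finset.card_le_card_of_injOn (fun X => I ∪ X)
  · intro X hX
    rw [Finset.mem_coe, connSets, Finset.mem_filter]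
    exact ⟨Finset.mem_univ _, conn_union G h1 X (by rw [h2]; exact Finset.subset_univ X)⟩
  · intro X hX Y hY hXY
    have hX' := Finset.mem_powerset.1 (Finset.mem_coe.1 hX)
    have hY' := Finset.mem_powerset.1 (Finset.mem_coe.1 hY)
    have hXY' : I ∪ X = I ∪ Y := hXY
    ext w
    have hw : w ∈ I ∪ X ↔ w ∈ I ∪ Y := by rw [hXY']
    by_cases hwI : w ∈ I
    · constructor
      · intro h
        exact absurd hwI (Finset.mem_sdiff.1 (hX' h)).2
      · intro h
        exact absurd hwI (Finset.mem_sdiff.1 (hY' h)).2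
    · simpa [hwI] using hw

/-- The density of connected sets of a connected graph of minimum degree at least three is at
most `23/24`. -/
theorem result (V : Type u) [Fintype V] (G : SimpleGraph V) (hG : G.Connected)
    (hdeg : ∀ v, 3 ≤ (G.neighborSet v).ncard) : density G ≤ 23 / 24 := by
  obtain ⟨L, hL, hN⟩ := card_connSets G hG hdeg
  obtain ⟨v0⟩ := hG.nonempty
  have hn : 0 < Fintype.card V := Fintype.card_pos_iff.2 ⟨v0⟩
  set n := Fintype.card V with hndef
  set N := (connSets G).card with hNdef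
  have hNpos : 0 < N := lt_of_lt_of_le (by positivity) hN
  have hnR : (0 : ℝ) < n := by exact_mod_cast hn
  have hNR : (0 : ℝ) < N := by exact_mod_cast hNpos
  rw [density, div_div, div_le_div_iff₀ (by positivity) (by norm_num)]
  by_contra hlt
  push Not at hlt
  -- complement sizes
  set c : Finset V → ℝ := fun U => (n : ℝ) - U.card with hc
  have hsum : ∑ U ∈ connSets G, c U = N * n - ∑ U ∈ connSets G, (U.card : ℝ) := by
    rw [hc, Finset.sum_sub_distrib, Finset.sum_const, nsmul_eq_mul]
  have hsmall : ∑ U ∈ connSets G, c U < N * (n / 24) := by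
    rw [hsum]
    have : (23 : ℝ) * ((connSets G).card * (Fintype.card V : ℝ)) <
      (∑ U ∈ connSets G, (U.card : ℝ)) * 24 := hlt
    rw [← hNdef, ← hndef] at this
    linarith
  -- weights
  set q : ℝ := Real.log 23 with hq
  have hqpos : 0 < q := Real.log_pos (by norm_num)
  have h1 : (N : ℝ) < ∑ U ∈ connSets G, Real.exp (q * ((n : ℝ) / 24 - c U)) := by
    have h2 : ∀ U ∈ connSets G, 1 + q * ((n : ℝ) / 24 - c U) ≤
        Real.exp (q * ((n : ℝ) / 24 - c U)) := by
      intro U _
      have := Real.add_one_le_exp (q * ((n : ℝ) / 24 - c U))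
      linarith
    have h3 := Finset.sum_le_sum h2
    refine lt_of_lt_of_le ?_ h3
    rw [Finset.sum_add_distrib, ← Finset.mul_sum, Finset.sum_sub_distrib, Finset.sum_const,
      Finset.sum_const, nsmul_eq_mul, nsmul_eq_mul, ← hNdef]
    have : 0 < q * ((N : ℝ) * (n / 24) - ∑ U ∈ connSets G, c U) :=
      mul_pos hqpos (by linarith)
    linarith
  have h2 : ∑ U ∈ connSets G, Real.exp (q * ((n : ℝ) / 24 - c U)) ≤
      Real.exp (q * (n / 24)) * (24 / 23) ^ n := by
    have h3 : ∀ U : Finset V, Real.exp (q * ((n : ℝ) / 24 - c U)) =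
        Real.exp (q * (n / 24)) * (1 ^ U.card * (1 / 23) ^ (n - U.card)) := by
      intro U
      have hU : U.card ≤ n := Finset.card_le_univ U
      have : c U = ((n - U.card : ℕ) : ℝ) := by
        rw [hc]; push_cast [hU]; ring
      rw [this, mul_sub, Real.exp_sub, one_pow, one_mul, div_eq_mul_inv, one_div, inv_pow,
        mul_comm q ((n - U.card : ℕ) : ℝ), Real.exp_nat_mul, hq, Real.exp_log (by norm_num)]
    calc ∑ U ∈ connSets G, Real.exp (q * ((n : ℝ) / 24 - c U))
        ≤ ∑ U : Finset V, Real.exp (q * ((n : ℝ) / 24 - c U)) :=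
          Finset.sum_le_sum_of_subset_of_nonneg (Finset.subset_univ _)
            (fun _ _ _ => (Real.exp_pos _).le)
      _ = Real.exp (q * (n / 24)) * (24 / 23) ^ n := by
          rw [Finset.sum_congr rfl fun U _ => h3 U, ← Finset.mul_sum,
            Fintype.sum_pow_mul_eq_add_pow]
          norm_num
          exact hndef.symm
  have h4 : (N : ℝ) < Real.exp (q * (n / 24)) * (24 / 23) ^ n := lt_of_lt_of_le h1 h2
  have h5 : ((2 : ℝ) ^ L) < Real.exp (q * (n / 24)) * (24 / 23) ^ n := by
    refine lt_of_le_of_lt ?_ h4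
    exact_mod_cast hN
  have h6 : ((2 : ℝ) ^ L) ^ 24 < (Real.exp (q * (n / 24)) * (24 / 23) ^ n) ^ 24 :=
    pow_lt_pow_left₀ h5 (by positivity) (by norm_num)
  have h7 : (Real.exp (q * (n / 24)) * (24 / 23) ^ n) ^ 24 = (23 * (24 / 23) ^ 24 : ℝ) ^ n := by
    rw [mul_pow, mul_pow, ← Real.exp_nat_mul, ← pow_mul, ← pow_mul, mul_comm n 24]
    congr 1
    have : ((24 : ℕ) : ℝ) * (q * (n / 24)) = n * q := by push_cast; ring
    rw [this, Real.exp_nat_mul, hq, Real.exp_log (by norm_num)]
  have h8 : (23 * (24 / 23) ^ 24 : ℝ) ^ n ≤ 64 ^ n :=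
    pow_le_pow_left₀ (by positivity) (by norm_num) n
  have h9 : (64 : ℝ) ^ n ≤ ((2 : ℝ) ^ L) ^ 24 := by
    rw [← pow_mul]
    calc (64 : ℝ) ^ n = 2 ^ (6 * n) := by rw [pow_mul]; norm_num
      _ ≤ 2 ^ (L * 24) := pow_le_pow_right₀ (by norm_num) (by omega)
  rw [h7] at h6
  linarith

end Pool.Agent.Results.MP_345bc6_co.DensityBound
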